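import Mathlib

/-!
An explicit nilpotent group of class two and a recognition theorem for it.
-/

set_option autoImplicit false

namespace Pool.Agent.Y511.CB

open Multiplicative

/-- If a group is generated by elements `u i` that commute modulo the normal subgroup `N`, and
there are homomorphisms `χ i` to the integers, trivial on `N` and dual to the `u i`, then an
element killed by all `χ i` is in `N`. -/
theorem dual_mem {G ι : Type*} [Group G] [Fintype ι] (u : ι → G)
    (N : Subgroup G) [N.Normal] (hgen : Subgroup.closure (Set.range u) = ⊤)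
    (hc : ∀ i j, u i * u j * (u i)⁻¹ * (u j)⁻¹ ∈ N) (χ : ι → G →* Multiplicative ℤ)
    (h1 : ∀ i j, i ≠ j → u i = 1 ∨ χ i (u j) = 1) (h2 : ∀ j, u j = 1 ∨ χ j (u j) = ofAdd 1)
    (g : G) (hg : ∀ i, u i = 1 ∨ χ i g = 1) : g ∈ N := by
  classical
  have c1 : ∀ i y, (QuotientGroup.mk' N (u i)) * (QuotientGroup.mk' N y) =
      (QuotientGroup.mk' N y) * (QuotientGroup.mk' N (u i)) := by
    intro i y
    have hy : y ∈ Subgroup.closure (Set.range u) := hgen ▸ Subgroup.mem_top y
    have : Subgroup.closure (Set.range u) ≤
        (Subgroup.centralizer {QuotientGroup.mk' N (u i)}).comap (QuotientGroup.mk' N) := by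
      rw [Subgroup.closure_le]
      rintro _ ⟨j, rfl⟩
      simp only [Subgroup.coe_comap, Set.mem_preimage, SetLike.mem_coe,
        Subgroup.mem_centralizer_singleton_iff]
      have h := hc i j
      rw [← QuotientGroup.ker_mk' N, MonoidHom.mem_ker] at h
      simp only [map_mul, map_inv] at h
      rw [mul_inv_eq_one, mul_inv_eq_iff_eq_mul] at h
      exact h.symm
    have h := this hy
    simp only [Subgroup.mem_comap, Subgroup.mem_centralizer_singleton_iff] at h
    exact h.symm
  have c2 : ∀ x y, (QuotientGroup.mk' N x) * (QuotientGroup.mk' N y) =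
      (QuotientGroup.mk' N y) * (QuotientGroup.mk' N x) := by
    intro x y
    have hx : x ∈ Subgroup.closure (Set.range u) := hgen ▸ Subgroup.mem_top x
    have : Subgroup.closure (Set.range u) ≤
        (Subgroup.centralizer {QuotientGroup.mk' N y}).comap (QuotientGroup.mk' N) := by
      rw [Subgroup.closure_le]
      rintro _ ⟨j, rfl⟩
      simp only [Subgroup.coe_comap, Set.mem_preimage, SetLike.mem_coe,
        Subgroup.mem_centralizer_singleton_iff]
      exact c1 j y
    have h := this hx
    simp only [Subgroup.mem_comap, Subgroup.mem_centralizer_singleton_iff] at h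
    exact h
  let _ : CommGroup (G ⧸ N) :=
    { (inferInstance : Group (G ⧸ N)) with
      mul_comm := by
        intro x y
        obtain ⟨x, rfl⟩ := QuotientGroup.mk'_surjective N x
        obtain ⟨y, rfl⟩ := QuotientGroup.mk'_surjective N y
        exact c2 x y }
  let P : G →* G ⧸ N := ∏ i, (zpowersHom (G ⧸ N) (QuotientGroup.mk' N (u i))).comp (χ i)
  have hP : ∀ x, P x = ∏ i, (QuotientGroup.mk' N (u i)) ^ (toAdd (χ i x)) := by
    intro x
    simp only [P, MonoidHom.finsetProd_apply, MonoidHom.comp_apply, zpowersHom_apply]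
  have e : P = QuotientGroup.mk' N := by
    apply MonoidHom.eq_of_eqOn_dense hgen
    rintro _ ⟨j, rfl⟩
    rw [hP, Finset.prod_eq_single j]
    · rcases h2 j with h | h
      · rw [h, map_one, one_zpow]
      · rw [h, toAdd_ofAdd, zpow_one]
    · intro i _ hij
      rcases h1 i j hij with h | h
      · rw [h, map_one, one_zpow]
      · rw [h, toAdd_one, zpow_zero]
    · intro h
      exact absurd (Finset.mem_univ j) h
  have h3 : P g = 1 := by
    rw [hP]
    apply Finset.prod_eq_one
    intro i _
    rcases hg i with h | h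
    · rw [h, map_one, one_zpow]
    · rw [h, toAdd_one, zpow_zero]
  rw [e, ← MonoidHom.mem_ker, QuotientGroup.ker_mk'] at h3
  exact h3

/-- The group of pairs `(x, w)` with `x k i j` and `w k i` integers. -/
@[ext]
structure H (n : ℕ) where
  /-- the first component -/
  x : Fin n → Fin n → Fin n → ℤ
  /-- the second component -/
  w : Fin n → Fin n → ℤ

namespace H

variable {n : ℕ}

/-- The bilinear map used in the multiplication. -/
def b (x y : Fin n → Fin n → Fin n → ℤ) : Fin n → Fin n → ℤ :=
  fun k i => ∑ m, y k i m * x k m i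

theorem b_add_left (x x' y : Fin n → Fin n → Fin n → ℤ) : b (x + x') y = b x y + b x' y := by
  funext k i
  simp only [b, Pi.add_apply, mul_add, Finset.sum_add_distrib]

theorem b_add_right (x y y' : Fin n → Fin n → Fin n → ℤ) : b x (y + y') = b x y + b x y' := by
  funext k i
  simp only [b, Pi.add_apply, add_mul, Finset.sum_add_distrib]

theorem b_zero_left (y : Fin n → Fin n → Fin n → ℤ) : b 0 y = 0 := by
  funext k i
  simp [b]

theorem b_zero_right (y : Fin n → Fin n → Fin n → ℤ) : b y 0 = 0 := by
  funext k i
  simp [b]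

theorem b_neg_left (x y : Fin n → Fin n → Fin n → ℤ) : b (-x) y = -b x y := by
  funext k i
  simp [b]

theorem b_neg_right (x y : Fin n → Fin n → Fin n → ℤ) : b x (-y) = -b x y := by
  funext k i
  simp [b]

instance : Mul (H n) := ⟨fun g h => ⟨g.x + h.x, g.w + h.w + b g.x h.x⟩⟩
instance : One (H n) := ⟨⟨0, 0⟩⟩
instance : Inv (H n) := ⟨fun g => ⟨-g.x, -g.w + b g.x g.x⟩⟩

@[simp] theorem mul_x (g h : H n) : (g * h).x = g.x + h.x := rfl
@[simp] theorem mul_w (g h : H n) : (g * h).w = g.w + h.w + b g.x h.x := rfl
@[simp] theorem one_x : (1 : H n).x = 0 := rfl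
@[simp] theorem one_w : (1 : H n).w = 0 := rfl
@[simp] theorem inv_x (g : H n) : (g⁻¹).x = -g.x := rfl
@[simp] theorem inv_w (g : H n) : (g⁻¹).w = -g.w + b g.x g.x := rfl

instance : Group (H n) :=
  Group.ofLeftAxioms
    (by
      intro g h k
      apply H.ext
      · simp [add_assoc]
      · simp only [mul_w, mul_x, b_add_left, b_add_right]
        abel)
    (by
      intro g
      apply H.ext
      · simp
      · simp [b_zero_left])
    (by
      intro g
      apply H.ext
      · simp
      · simp only [mul_w, inv_w, inv_x, b_neg_left, one_w]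
        abel)

/-- The first component is a homomorphism. -/
def xHom (k i j : Fin n) : H n →* Multiplicative ℤ where
  toFun g := ofAdd (g.x k i j)
  map_one' := rfl
  map_mul' g h := by simp [ofAdd_add]

end H

end Pool.Agent.Y511.CB
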