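import Pool.Agent.Y511.CB.Abs

/-!
Recognition theorem: a group with the relations of the quotient embeds in the explicit group.
-/

set_option autoImplicit false

namespace Pool.Agent.Y511.CB

open Multiplicative

/-- The commutator. -/
def cm {G : Type*} [Group G] (x y : G) : G := x * y * x⁻¹ * y⁻¹

theorem cm_comm {G : Type*} [Group G] {x y z : G} (h1 : Commute z x) (h2 : Commute z y) :
    Commute z (cm x y) :=
  ((h1.mul_right h2).mul_right h1.inv_right).mul_right h2.inv_right

theorem cm_inv {G : Type*} [Group G] (x y : G) : (cm x y)⁻¹ = cm y x := by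
  unfold cm; group

theorem map_cm {G G' : Type*} [Group G] [Group G'] (f : G →* G') (x y : G) :
    f (cm x y) = cm (f x) (f y) := by
  simp [cm]

variable {n : ℕ}

/-- The three indices are distinct. -/
def Tr (i j k : Fin n) : Prop := j ≠ i ∧ k ≠ i ∧ j ≠ k

instance (i j k : Fin n) : Decidable (Tr i j k) := by unfold Tr; infer_instance

/-- The exceptional pairs of triples: `{j, k} = {l, w}` and `{m, p} = {i, w}` for some `w`. -/
def Rev (i j k l m p : Fin n) : Prop :=
  (j = l ∧ m = i ∧ k = p) ∨ (j = l ∧ p = i ∧ k = m) ∨ (k = l ∧ m = i ∧ j = p) ∨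
    (k = l ∧ p = i ∧ j = m)

/-- The first component of the image of a commutator transvection. -/
def X0 (i j k : Fin n) : Fin n → Fin n → Fin n → ℤ := fun c l m =>
  (if c = j ∧ l = i ∧ m = k then 1 else 0) - (if c = k ∧ l = i ∧ m = j then 1 else 0)

theorem b_X0 (p q r : Fin n) (h : Tr p q r) :
    H.b (X0 p q r) (X0 q p r) = fun c l => if c = r ∧ l = q then 1 else 0 := by
  obtain ⟨hqp, hrp, hqr⟩ := h
  funext c l
  simp only [H.b, X0]
  by_cases hc : c = r
  · subst hc
    by_cases hl : l = q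
    · subst hl
      rw [Finset.sum_eq_single p]
      · simp [hrp, hqr, hqr.symm]
      · intro m _ hm
        simp [hm, hrp]
      · intro h; exact absurd (Finset.mem_univ p) h
    · simp [hl]
  · by_cases hc2 : c = p
    · subst hc2
      simp [hc, hqp.symm]
    · simp [hc, hc2]

theorem H_cm (g h : H n) : cm g h = ⟨0, H.b g.x h.x - H.b h.x g.x⟩ := by
  apply H.ext
  · simp [cm]
  · simp only [cm, H.mul_w, H.mul_x, H.inv_x, H.inv_w, H.b_add_left, H.b_neg_left, H.b_neg_right]
    abel

theorem recog (b0 b1 : Fin n) (hb : b0 ≠ b1) {G : Type*} [Group G] (a : Fin n → Fin n → Fin n → G)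
    (h0 : ∀ i j k, ¬ Tr i j k → a i j k = 1)
    (hs : ∀ i j k, a i k j = (a i j k)⁻¹)
    (hcomm : ∀ i j k l m p, Tr i j k → Tr l m p → ¬ Rev i j k l m p →
      Commute (a i j k) (a l m p))
    (hcen : ∀ i j k p q r, Tr i j k → Tr p q r → Commute (a i j k) (cm (a p q r) (a q p r)))
    (hcoc : ∀ p q r s, Tr p q r → s ≠ p → s ≠ q → s ≠ r →
      cm (a p s r) (a s p r) = cm (a p q r) (a q p r) * cm (a q s r) (a s q r))
    (hgen : Subgroup.closure (Set.range fun t : Fin n × Fin n × Fin n => a t.1 t.2.1 t.2.2) = ⊤)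
    (ρ : G →* H n) (hx : ∀ i j k, Tr i j k → (ρ (a i j k)).x = X0 i j k)
    (g : G) (hg : ρ g = 1) : g = 1 := by
  classical
  -- the base point
  let bs : Fin n → Fin n := fun k => if k = b0 then b1 else b0
  have hbs : ∀ k, bs k ≠ k := by
    intro k
    simp only [bs]
    split_ifs with h
    · rw [h]; exact hb.symm
    · exact fun h' => h h'.symm
  let w : Fin n × Fin n → G := fun t => cm (a (bs t.1) t.2 t.1) (a t.2 (bs t.1) t.1)
  let N : Subgroup G := Subgroup.closure (Set.range w)
  have hw1 : ∀ t : Fin n × Fin n, ¬ Tr (bs t.1) t.2 t.1 → w t = 1 := by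
    intro t ht
    have h2 : ¬ Tr t.2 (bs t.1) t.1 := by
      intro h; apply ht
      exact ⟨h.1.symm, (hbs t.1).symm, fun e => h.2.1 e.symm⟩
    simp only [w, h0 _ _ _ ht, h0 _ _ _ h2, cm]
    group
  have hwa : ∀ t i j k, Commute (a i j k) (w t) := by
    intro t i j k
    by_cases h1 : Tr i j k
    · by_cases h2 : Tr (bs t.1) t.2 t.1
      · exact hcen _ _ _ _ _ _ h1 h2
      · rw [hw1 t h2]; exact Commute.one_right _
    · rw [h0 _ _ _ h1]; exact Commute.one_left _
  have hwg : ∀ t x, Commute x (w t) := by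
    intro t x
    have hx : x ∈ Subgroup.closure (Set.range fun t : Fin n × Fin n × Fin n =>
      a t.1 t.2.1 t.2.2) := hgen ▸ Subgroup.mem_top x
    have : Subgroup.closure (Set.range fun t : Fin n × Fin n × Fin n => a t.1 t.2.1 t.2.2) ≤
        Subgroup.centralizer {w t} := by
      rw [Subgroup.closure_le]
      rintro _ ⟨s, rfl⟩
      exact Subgroup.mem_centralizer_singleton_iff.mpr (hwa t _ _ _)
    exact Subgroup.mem_centralizer_singleton_iff.mp (this hx)
  have hNc : N ≤ Subgroup.center G := by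
    rw [Subgroup.closure_le]
    rintro _ ⟨t, rfl⟩
    rw [SetLike.mem_coe, Subgroup.mem_center_iff]
    intro x
    exact (hwg t x)
  have hNn : N.Normal := by
    constructor
    intro x hx y
    have h := Subgroup.mem_center_iff.mp (hNc hx) y
    rw [h, mul_inv_cancel_right]
    exact hx
  have hh : ∀ p q r, Tr p q r → cm (a p q r) (a q p r) ∈ N := by
    intro p q r h
    by_cases hp : p = bs r
    · have : cm (a p q r) (a q p r) = w (r, q) := by
        simp only [w, hp]
      rw [this]
      exact Subgroup.subset_closure ⟨_, rfl⟩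
    by_cases hq : q = bs r
    · have : cm (a p q r) (a q p r) = (w (r, p))⁻¹ := by
        rw [cm_inv]
        simp only [hq]
      rw [this]
      exact inv_mem (Subgroup.subset_closure ⟨_, rfl⟩)
    have h1 : Tr p (bs r) r := ⟨fun e => hp e.symm, h.2.1, hbs r⟩
    have e := hcoc p (bs r) r q h1 h.1 hq h.2.2
    rw [e]
    refine mul_mem ?_ ?_
    · have : cm (a p (bs r) r) (a (bs r) p r) = (w (r, p))⁻¹ := by
        rw [cm_inv]
      rw [this]
      exact inv_mem (Subgroup.subset_closure ⟨_, rfl⟩)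
    · exact Subgroup.subset_closure ⟨(r, q), rfl⟩
  -- commutation modulo `N`
  have hcN : ∀ i j k l m p, Commute (QuotientGroup.mk' N (a i j k))
      (QuotientGroup.mk' N (a l m p)) := by
    have key : ∀ i l w, Tr i l w → Commute (QuotientGroup.mk' N (a i l w))
        (QuotientGroup.mk' N (a l i w)) := by
      intro i l w h
      have h2 := hh i l w h
      rw [← QuotientGroup.ker_mk' N, MonoidHom.mem_ker, map_cm, cm, mul_inv_eq_one,
        mul_inv_eq_iff_eq_mul] at h2
      exact h2
    intro i j k l m p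
    by_cases h1 : Tr i j k
    swap
    · rw [h0 _ _ _ h1, map_one]; exact Commute.one_left _
    by_cases h2 : Tr l m p
    swap
    · rw [h0 _ _ _ h2, map_one]; exact Commute.one_right _
    by_cases h3 : Rev i j k l m p
    · rcases h3 with ⟨e1, e2, e3⟩ | ⟨e1, e2, e3⟩ | ⟨e1, e2, e3⟩ | ⟨e1, e2, e3⟩
      · subst e1 e2 e3
        exact key _ _ _ h1
      · subst e1 e2 e3
        rw [hs j p k, map_inv]
        exact (key _ _ _ h1).inv_right
      · subst e1 e2 e3
        rw [hs m k j, map_inv]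
        exact (key _ _ _ ⟨h1.2.1, h1.1, h1.2.2.symm⟩).inv_left
      · subst e1 e2 e3
        rw [hs p k j, hs k p j, map_inv, map_inv]
        exact (key _ _ _ ⟨h1.2.1, h1.1, h1.2.2.symm⟩).inv_inv
    · exact (hcomm _ _ _ _ _ _ h1 h2 h3).map (QuotientGroup.mk' N)
  -- first step
  let u : Fin n × Fin n × Fin n → G := fun t => if t.2.1 < t.2.2 then a t.1 t.2.1 t.2.2 else 1
  have hu : Subgroup.closure (Set.range u) = ⊤ := by
    rw [eq_top_iff, ← hgen, Subgroup.closure_le]
    rintro _ ⟨⟨i, j, k⟩, rfl⟩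
    rcases lt_trichotomy j k with h | h | h
    · apply Subgroup.subset_closure
      exact ⟨(i, j, k), by simp [u, h]⟩
    · have : a i j k = 1 := h0 _ _ _ (fun h' => h'.2.2 h)
      simp only [this]
      exact one_mem _
    · have : a i j k = (u (i, k, j))⁻¹ := by simp only [u, h, if_true]; exact hs i k j
      simp only [this]
      exact inv_mem (Subgroup.subset_closure ⟨_, rfl⟩)
  have hu2 : ∀ t, u t = 1 ∨ (t.2.1 < t.2.2 ∧ Tr t.1 t.2.1 t.2.2 ∧ u t = a t.1 t.2.1 t.2.2) := by
    intro t
    by_cases h : t.2.1 < t.2.2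
    · by_cases h2 : Tr t.1 t.2.1 t.2.2
      · right; exact ⟨h, h2, by simp [u, h]⟩
      · left; simp [u, h, h0 _ _ _ h2]
    · left; simp [u, h]
  have hgN : g ∈ N := by
    apply dual_mem u N hu (χ := fun t => (H.xHom t.2.1 t.1 t.2.2).comp ρ)
    · intro s t
      rcases hu2 s with h1 | ⟨_, _, h1⟩
      · rw [h1]; simp
      rcases hu2 t with h2 | ⟨_, _, h2⟩
      · rw [h2]; simp
      rw [h1, h2, ← QuotientGroup.ker_mk' N, MonoidHom.mem_ker]
      have h3 := hcN s.1 s.2.1 s.2.2 t.1 t.2.1 t.2.2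
      rw [map_mul, map_mul, map_mul, map_inv, map_inv, h3.eq, mul_inv_cancel_right, mul_inv_cancel]
    · intro s t hst
      rcases hu2 s with h1 | ⟨h1a, h1b, h1⟩
      · left; exact h1
      right
      rcases hu2 t with h2 | ⟨h2a, h2b, h2⟩
      · rw [h2, map_one]
      rw [h2]
      show ofAdd ((ρ (a t.1 t.2.1 t.2.2)).x s.2.1 s.1 s.2.2) = 1
      rw [hx _ _ _ h2b]
      have e : X0 t.1 t.2.1 t.2.2 s.2.1 s.1 s.2.2 = 0 := by
        unfold X0
        rw [if_neg, if_neg, sub_zero]
        · rintro ⟨e1, e2, e3⟩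
          rw [e1, e3] at h1a
          exact absurd h1a (not_lt.mpr h2a.le)
        · rintro ⟨e1, e2, e3⟩
          exact hst (Prod.ext e2 (Prod.ext e1 e3))
      rw [e]; rfl
    · intro t
      rcases hu2 t with h2 | ⟨h2a, h2b, h2⟩
      · left; exact h2
      right
      rw [h2]
      show ofAdd ((ρ (a t.1 t.2.1 t.2.2)).x t.2.1 t.1 t.2.2) = ofAdd 1
      rw [hx _ _ _ h2b]
      have e : X0 t.1 t.2.1 t.2.2 t.2.1 t.1 t.2.2 = 1 := by
        unfold X0
        rw [if_pos ⟨rfl, rfl, rfl⟩, if_neg, sub_zero]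
        rintro ⟨e1, _, _⟩
        exact absurd h2a (by rw [e1]; exact lt_irrefl _)
      rw [e]
    · intro t
      right
      show ofAdd ((ρ g).x t.2.1 t.1 t.2.2) = 1
      rw [hg]; rfl
  -- second step
  have hxN : ∀ z ∈ N, (ρ z).x = 0 := by
    intro z hz
    induction hz using Subgroup.closure_induction with
    | mem y hy =>
      obtain ⟨t, rfl⟩ := hy
      simp only [w, map_cm, H_cm]
    | one => simp
    | mul y z _ _ h1 h2 => simp [h1, h2]
    | inv y _ h1 => simp [h1]
  let χ : Fin n × Fin n → N →* Multiplicative ℤ := fun t =>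
    { toFun := fun z => ofAdd ((ρ z).w t.1 t.2)
      map_one' := by simp
      map_mul' := by
        intro y z
        have h1 := hxN _ y.2
        simp [h1, H.b_zero_left, ofAdd_add] }
  have hww : ∀ s t : Fin n × Fin n, Tr (bs t.1) t.2 t.1 → (ρ (w t)).w s.1 s.2 =
      (if s.1 = t.1 ∧ s.2 = t.2 then 1 else 0) - (if s.1 = t.1 ∧ s.2 = bs t.1 then 1 else 0) := by
    intro s t ht
    have ht' : Tr t.2 (bs t.1) t.1 := ⟨ht.1.symm, fun e => ht.2.2 e.symm, hbs _⟩
    simp only [w, map_cm, H_cm, hx _ _ _ ht, hx _ _ _ ht', b_X0 _ _ _ ht, b_X0 _ _ _ ht',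
      Pi.sub_apply]
  have hu' : Subgroup.closure (Set.range fun t => (⟨w t, Subgroup.subset_closure ⟨t, rfl⟩⟩ : N)) =
      ⊤ := by
    have := Subgroup.closure_closure_coe_preimage (k := Set.range w)
    rw [← this]
    congr 1
    ext z
    simp only [Set.mem_range, Set.mem_preimage]
    constructor
    · rintro ⟨t, rfl⟩; exact ⟨t, rfl⟩
    · rintro ⟨t, ht⟩; exact ⟨t, Subtype.ext ht⟩
  have hfin : (⟨g, hgN⟩ : N) ∈ (⊥ : Subgroup N) := by
    apply dual_mem (fun t => (⟨w t, Subgroup.subset_closure ⟨t, rfl⟩⟩ : N)) ⊥ hu' (χ := χ)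
    · intro s t
      rw [Subgroup.mem_bot]
      apply Subtype.ext
      show w s * w t * (w s)⁻¹ * (w t)⁻¹ = 1
      rw [(hwg t (w s)).eq, mul_inv_cancel_right, mul_inv_cancel]
    · intro s t hst
      by_cases hs1 : Tr (bs s.1) s.2 s.1
      · right
        show ofAdd ((ρ (w t)).w s.1 s.2) = 1
        by_cases ht : Tr (bs t.1) t.2 t.1
        · rw [hww s t ht, if_neg, if_neg]
          · rfl
          · rintro ⟨e1, e2⟩
            rw [← e1] at e2
            exact hs1.1 e2
          · rintro ⟨e1, e2⟩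
            exact hst (Prod.ext e1 e2)
        · rw [hw1 t ht, map_one]; rfl
      · left
        exact Subtype.ext (hw1 s hs1)
    · intro t
      by_cases ht : Tr (bs t.1) t.2 t.1
      · right
        show ofAdd ((ρ (w t)).w t.1 t.2) = ofAdd 1
        rw [hww t t ht, if_pos ⟨rfl, rfl⟩, if_neg, sub_zero]
        rintro ⟨_, e⟩
        exact ht.1 e
      · left
        exact Subtype.ext (hw1 t ht)
    · intro t
      right
      show ofAdd ((ρ g).w t.1 t.2) = 1
      rw [hg]; rfl
  rw [Subgroup.mem_bot] at hfin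
  exact congrArg Subtype.val hfin

end Pool.Agent.Y511.CB
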