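import Pool.Agent.Y511.CB.Rel
import Pool.Agent.Y511.CB.Rec

/-!
The quotient is nilpotent of class two on the images of commutator transvections.
-/

set_option autoImplicit false

namespace Pool.Agent.Y511.CB

open FreeGroup (of)
open Pool.Agent.Results.MP_0edd48_al.NontrivialIntersection

variable {n : ℕ}

theorem rel5 (p q r s : Fin n) (hpq : q ≠ p) (hpr : r ≠ p) (hqr : r ≠ q)
    (hps : s ≠ p) (hqs : s ≠ q) (hrs : s ≠ r) :
    (a s p r)⁻¹ * a p s r * (a s p r)⁻¹ * (a p s r)⁻¹ * a s p r * a s p r =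
      a q s r * (a s q r)⁻¹ * (a q s r)⁻¹ * a s q r * cm (a q p r) (a p q r) := by
  have e : MI q s r hqs hqr * MI p q r hpq hpr =
      (KI p q hpq)⁻¹ * (MI p s r hps hpr * (KI p r hpr)⁻¹ * (MI p s r hps hpr)⁻¹ * KI p r hpr) *
        KI p q hpq * MI p q r hpq hpr * MI q s r hqs hqr :=
    Subtype.ext (E3 p q r s r hpq hpr hqr hqs hqr hps hpr)
  have e2 := congrArg (ps s p hps.symm) e
  simp only [map_mul, map_inv, g1 p s q hps hpq hqs.symm, g1 p s r hps hpr hrs.symm,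
    g3 p s r hps hpr hrs.symm, g4 p s q r hps hpq hqs.symm hpr hrs.symm,
    g5 p s r q hps hpr hrs.symm hpq hqs.symm hqr.symm] at e2
  set A := a p q r with hA
  set B := a q p r with hB
  set C := a q s r with hC
  set D := a s q r with hD
  set A' := a p s r with hA'
  set B' := a s p r with hB'
  set E := a s p q with hE
  have cBC : Commute B C := r1 q p r s r hpq.symm hqr hqs hqr
  have cAC : Commute A C := r3 p q r s r hpq hpr hqr hqs hqr hps hpr
  have cAD : Commute A D := by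
    have h1 : Commute (a s q r) (a p q r) := by
      have := r2 s q r p q r hqs.symm hrs.symm hpq hpr hps hpq hpr hqs.symm hrs.symm
      exact this
    exact h1.symm
  have cBD : Commute B D := by
    have h1 : Commute (a s q r) (a q p r) :=
      r3 s q r p r hqs.symm hrs.symm hqr hpq.symm hqr hps.symm hrs.symm
    exact h1.symm
  have cEA' : Commute E A' := by
    have h1 : Commute (a s p q) (a p s r) :=
      r4 s p q r hps.symm hqs.symm hpq hrs.symm hpr hqr
    exact h1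
  have cEB' : Commute E B' := r1 s p q p r hps.symm hqs.symm hps.symm hrs.symm
  have cEU : Commute E (B'⁻¹ * A' * B'⁻¹ * (B'⁻¹ * A')⁻¹ * B') :=
    ((((cEB'.inv_right.mul_right cEA').mul_right cEB'.inv_right).mul_right
      (cEB'.inv_right.mul_right cEA').inv_right).mul_right cEB')
  have e3 : B'⁻¹ * A' * B'⁻¹ * (B'⁻¹ * A')⁻¹ * B' * (D⁻¹ * A) * (B * C) =
      B * C * (D⁻¹ * A) := by
    calc B'⁻¹ * A' * B'⁻¹ * (B'⁻¹ * A')⁻¹ * B' * (D⁻¹ * A) * (B * C)
        = E⁻¹ * (E * (B'⁻¹ * A' * B'⁻¹ * (B'⁻¹ * A')⁻¹ * B')) * (D⁻¹ * A) * (B * C) := by group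
      _ = E⁻¹ * (B'⁻¹ * A' * B'⁻¹ * (B'⁻¹ * A')⁻¹ * B') * E * (D⁻¹ * A) * (B * C) := by
          rw [cEU.eq]; simp only [mul_assoc]
      _ = B * C * (D⁻¹ * A) := e2.symm
  have e4 : B'⁻¹ * A' * B'⁻¹ * (B'⁻¹ * A')⁻¹ * B' =
      B * C * (D⁻¹ * A) * (B * C)⁻¹ * (D⁻¹ * A)⁻¹ := by
    rw [← e3]; group
  have e5 : B'⁻¹ * A' * B'⁻¹ * A'⁻¹ * B' * B' =
      B'⁻¹ * A' * B'⁻¹ * (B'⁻¹ * A')⁻¹ * B' := by group
  rw [e5, e4]
  have e6 : B * C = C * B := cBC.eq
  have e7 : B * D⁻¹ = D⁻¹ * B := cBD.inv_right.eq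
  have cW : Commute D (cm B A) := cm_comm cBD.symm cAD.symm
  have cCW : Commute C (cm B A) := cm_comm cBC.symm cAC.symm
  calc B * C * (D⁻¹ * A) * (B * C)⁻¹ * (D⁻¹ * A)⁻¹
      = C * (B * D⁻¹) * A * B⁻¹ * C⁻¹ * A⁻¹ * D := by rw [e6]; group
    _ = C * D⁻¹ * (B * A * B⁻¹ * (C⁻¹ * A⁻¹)) * D := by rw [e7]; group
    _ = C * D⁻¹ * (B * A * B⁻¹ * (A⁻¹ * C⁻¹)) * D := by rw [(cAC.inv_inv).eq]
    _ = C * D⁻¹ * (cm B A * C⁻¹) * D := by rw [cm]; group
    _ = C * D⁻¹ * (C⁻¹ * cm B A) * D := by rw [cCW.inv_left.eq]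
    _ = C * D⁻¹ * C⁻¹ * (cm B A * D) := by group
    _ = C * D⁻¹ * C⁻¹ * D * cm B A := by rw [← cW.eq]; group

/-- `a_{pqr}` and `a_{qpr}` generate a group of class at most two. -/
theorem cls (p q r s : Fin n) (hpq : q ≠ p) (hpr : r ≠ p) (hqr : r ≠ q)
    (hps : s ≠ p) (hqs : s ≠ q) (hrs : s ≠ r) :
    Commute (a p q r) (cm (a q p r) (a p q r)) ∧ Commute (a q p r) (cm (a q p r) (a p q r)) := by
  have e := rel5 p q r s hpq hpr hqr hps hqs hrs
  set A := a p q r with hA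
  set B := a q p r with hB
  set C := a q s r with hC
  set D := a s q r with hD
  set A' := a p s r with hA'
  set B' := a s p r with hB'
  have cBC : Commute B C := r1 q p r s r hpq.symm hqr hqs hqr
  have cAC : Commute A C := r3 p q r s r hpq hpr hqr hqs hqr hps hpr
  have cAD : Commute A D :=
    (r2 s q r p q r hqs.symm hrs.symm hpq hpr hps hpq hpr hqs.symm hrs.symm).symm
  have cBD : Commute B D :=
    (r3 s q r p r hqs.symm hrs.symm hqr hpq.symm hqr hps.symm hrs.symm).symm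
  have cAA' : Commute A A' := r1 p q r s r hpq hpr hps hpr
  have cBB' : Commute B B' :=
    r2 q p r s p r hpq.symm hqr hps.symm hrs.symm hqs.symm hps.symm hrs.symm hpq.symm hqr
  have cBA' : Commute B A' :=
    r3 q p r s r hpq.symm hqr hpr hps hpr hqs hqr
  have cAB' : Commute A B' :=
    (r3 s p r q r hps.symm hrs.symm hpr hpq hpr hqs.symm hrs.symm).symm
  have e2 : cm B A = (C * D⁻¹ * C⁻¹ * D)⁻¹ * (B'⁻¹ * A' * B'⁻¹ * A'⁻¹ * B' * B') := by
    rw [e]; group
  rw [e2]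
  constructor
  · exact ((((cAC.mul_right cAD.inv_right).mul_right cAC.inv_right).mul_right cAD).inv_right).mul_right
      (((((cAB'.inv_right.mul_right cAA').mul_right cAB'.inv_right).mul_right
        cAA'.inv_right).mul_right cAB').mul_right cAB')
  · exact ((((cBC.mul_right cBD.inv_right).mul_right cBC.inv_right).mul_right cBD).inv_right).mul_right
      (((((cBB'.inv_right.mul_right cBA').mul_right cBB'.inv_right).mul_right
        cBA'.inv_right).mul_right cBB').mul_right cBB')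

theorem cls' (p q r s : Fin n) (hpq : q ≠ p) (hpr : r ≠ p) (hqr : r ≠ q)
    (hps : s ≠ p) (hqs : s ≠ q) (hrs : s ≠ r) :
    Commute (a p q r) (cm (a p q r) (a q p r)) ∧ Commute (a q p r) (cm (a p q r) (a q p r)) := by
  have h := cls p q r s hpq hpr hqr hps hqs hrs
  have e : cm (a p q r) (a q p r) = (cm (a q p r) (a p q r))⁻¹ := by
    unfold cm; group
  rw [e]
  exact ⟨h.1.inv_right, h.2.inv_right⟩

/-- The cocycle relation. -/
theorem coc (p q r s : Fin n) (hpq : q ≠ p) (hpr : r ≠ p) (hqr : r ≠ q)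
    (hps : s ≠ p) (hqs : s ≠ q) (hrs : s ≠ r) :
    cm (a p s r) (a s p r) = cm (a p q r) (a q p r) * cm (a q s r) (a s q r) := by
  have e := rel5 p q r s hpq hpr hqr hps hqs hrs
  have h1 := cls' q s r p hqs hqr hrs.symm hpq.symm hps.symm hpr.symm
  have h2 := cls' p s r q hps hpr hrs.symm hpq hqs.symm hqr.symm
  have e1 : a q s r * (a s q r)⁻¹ * (a q s r)⁻¹ * a s q r = (cm (a q s r) (a s q r))⁻¹ := by
    have : a q s r * (a s q r)⁻¹ * (a q s r)⁻¹ * a s q r =
        (a s q r)⁻¹ * (cm (a q s r) (a s q r))⁻¹ * a s q r := by unfold cm; group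
    rw [this, h1.2.inv_inv.eq, inv_mul_cancel_right]
  have e2 : (a s p r)⁻¹ * a p s r * (a s p r)⁻¹ * (a p s r)⁻¹ * a s p r * a s p r =
      (cm (a p s r) (a s p r))⁻¹ := by
    have : (a s p r)⁻¹ * a p s r * (a s p r)⁻¹ * (a p s r)⁻¹ * a s p r * a s p r =
        (a s p r)⁻¹ * ((a s p r)⁻¹ * (cm (a p s r) (a s p r))⁻¹) * a s p r * a s p r := by
      unfold cm; group
    rw [this, h2.2.inv_inv.eq]
    have : (a s p r)⁻¹ * ((cm (a p s r) (a s p r))⁻¹ * (a s p r)⁻¹) * a s p r * a s p r =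
        ((a s p r)⁻¹ * (cm (a p s r) (a s p r))⁻¹) * a s p r := by group
    rw [this, h2.2.inv_inv.eq, inv_mul_cancel_right]
  have e3 : cm (a q p r) (a p q r) = (cm (a p q r) (a q p r))⁻¹ := by unfold cm; group
  rw [e1, e2, e3, ← mul_inv_rev] at e
  exact inv_injective e

end Pool.Agent.Y511.CB
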