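import Mathlib

/-!
Fox derivatives over a commutative ring, through affine transformations.
-/

set_option autoImplicit false

namespace Pool.Agent.Y511.CB

open FreeGroup (of)

/-- Pairs `(u, v)` of a unit and a vector, standing for the affine map `y ↦ u y + v`. -/
@[ext]
structure Aff (R : Type*) [CommRing R] (n : ℕ) where
  /-- the linear part -/
  u : Rˣ
  /-- the translation part -/
  v : Fin n → R

namespace Aff

variable {R : Type*} [CommRing R] {n : ℕ}

instance : Mul (Aff R n) := ⟨fun g h => ⟨g.u * h.u, g.v + (g.u : R) • h.v⟩⟩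
instance : One (Aff R n) := ⟨⟨1, 0⟩⟩
instance : Inv (Aff R n) := ⟨fun g => ⟨g.u⁻¹, -(((g.u⁻¹ : Rˣ) : R) • g.v)⟩⟩

@[simp] theorem mul_u (g h : Aff R n) : (g * h).u = g.u * h.u := rfl
@[simp] theorem mul_v (g h : Aff R n) : (g * h).v = g.v + (g.u : R) • h.v := rfl
@[simp] theorem one_u : (1 : Aff R n).u = 1 := rfl
@[simp] theorem one_v : (1 : Aff R n).v = 0 := rfl
@[simp] theorem inv_u (g : Aff R n) : (g⁻¹).u = g.u⁻¹ := rfl
@[simp] theorem inv_v (g : Aff R n) : (g⁻¹).v = -(((g.u⁻¹ : Rˣ) : R) • g.v) := rfl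

instance : Group (Aff R n) :=
  Group.ofLeftAxioms
    (by
      intro g h k
      apply Aff.ext
      · simp [mul_assoc]
      · simp [add_assoc, smul_add, mul_smul])
    (by
      intro g
      apply Aff.ext
      · simp
      · simp)
    (by
      intro g
      apply Aff.ext
      · simp
      · simp)

/-- The linear part is a homomorphism. -/
def uHom : Aff R n →* Rˣ where
  toFun g := g.u
  map_one' := rfl
  map_mul' _ _ := rfl

/-- A matrix acts on the translation parts. -/
def lin (J : Fin n → Fin n → R) : Aff R n →* Aff R n where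
  toFun g := ⟨g.u, ∑ j, g.v j • J j⟩
  map_one' := by
    apply Aff.ext
    · rfl
    · simp
  map_mul' g h := by
    apply Aff.ext
    · rfl
    · simp only [mul_v, Pi.add_apply, Pi.smul_apply, add_smul, Finset.sum_add_distrib,
        Finset.smul_sum, smul_eq_mul, mul_smul]

theorem cm_v (g h : Aff R n) : (g * h * g⁻¹ * h⁻¹).v =
    (1 - (h.u : R)) • g.v + ((g.u : R) - 1) • h.v := by
  funext i
  simp only [mul_v, mul_u, inv_v, inv_u, Pi.add_apply, Pi.smul_apply, Pi.neg_apply, smul_eq_mul,
    Units.val_mul]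
  have h1 : (g.u : R) * ((g.u⁻¹ : Rˣ) : R) = 1 := Units.mul_inv _
  have h2 : (h.u : R) * ((h.u⁻¹ : Rˣ) : R) = 1 := Units.mul_inv _
  linear_combination (-(h.u : R) * g.v i - (h.u : R) * ((h.u⁻¹ : Rˣ) : R) * h.v i) * h1 -
    h.v i * h2

end Aff

/-- The power series `1 + s`, as a unit. -/
noncomputable def tt : (PowerSeries ℤ)ˣ :=
  (PowerSeries.isUnit_iff_constantCoeff.mpr
    (by simp : IsUnit (PowerSeries.constantCoeff (1 + PowerSeries.X : PowerSeries ℤ)))).unit

theorem tt_val : (tt : PowerSeries ℤ) = 1 + PowerSeries.X := rfl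

/-- The linear part `ε_k(w)` and the Fox derivatives of a word `w`, evaluated at
`x_k = 1 + s` and `x_j = 1` for `j ≠ k`. -/
noncomputable def mu {n : ℕ} (k : Fin n) : FreeGroup (Fin n) →* Aff (PowerSeries ℤ) n :=
  FreeGroup.lift fun j => ⟨if j = k then tt else 1, Pi.single j 1⟩

theorem mu_of {n : ℕ} (k j : Fin n) :
    mu k (of j) = ⟨if j = k then tt else 1, Pi.single j 1⟩ := by
  simp [mu]

theorem mu_of_u {n : ℕ} (k j : Fin n) : (mu k (of j)).u = if j = k then tt else 1 := by
  rw [mu_of]

theorem mu_of_v {n : ℕ} (k j : Fin n) : (mu k (of j)).v = Pi.single j 1 := by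
  rw [mu_of]

/-- The relation between the Fox derivative with respect to `x_k` and the linear part. -/
theorem mu_k {n : ℕ} (k : Fin n) (w : FreeGroup (Fin n)) :
    ((mu k w).u : PowerSeries ℤ) = 1 + PowerSeries.X * (mu k w).v k := by
  induction w using FreeGroup.induction_on with
  | C1 => simp
  | of j =>
    rw [mu_of]
    by_cases h : j = k
    · subst h; simp [tt_val]
    · simp [h, Ne.symm h]
  | inv_of j ih =>
    rw [map_inv]
    simp only [Aff.inv_u, Aff.inv_v, Pi.neg_apply, Pi.smul_apply, smul_eq_mul]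
    have h1 : ((mu k (of j)).u : PowerSeries ℤ) * (((mu k (of j)).u⁻¹ : (PowerSeries ℤ)ˣ) :
      PowerSeries ℤ) = 1 := Units.mul_inv _
    rw [ih] at h1
    linear_combination h1
  | mul x y hx hy =>
    rw [map_mul]
    simp only [Aff.mul_u, Aff.mul_v, Pi.add_apply, Pi.smul_apply, smul_eq_mul, Units.val_mul]
    rw [hy]
    linear_combination hx

theorem mu_cc {n : ℕ} (k : Fin n) (w : FreeGroup (Fin n)) :
    PowerSeries.constantCoeff ((mu k w).u : PowerSeries ℤ) = 1 := by
  rw [mu_k]; simp

/-- The exponent sum, as a homomorphism. -/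
noncomputable def ee {n : ℕ} (k m : Fin n) : FreeGroup (Fin n) →* Multiplicative ℤ where
  toFun w := Multiplicative.ofAdd (PowerSeries.constantCoeff ((mu k w).v m))
  map_one' := by simp
  map_mul' x y := by
    simp [mu_cc, ofAdd_add]

end Pool.Agent.Y511.CB
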