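import Pool.Agent.Y511.CB.Rho

/-!
The values of `ρ` on the generators.
-/

set_option autoImplicit false
set_option linter.unusedSimpArgs false

namespace Pool.Agent.Y511.CB

open FreeGroup (of)
open Pool.Agent.Results.MP_0edd48_al.NontrivialIntersection

variable {n : ℕ}

theorem J_fix (k : Fin n) (φ : IA n) (l : Fin n)
    (h : (φ : MulAut (FreeGroup (Fin n))) (of l) = of l) : J k φ l = Pi.single l 1 := by
  rw [J, h, mu_of_v]

theorem J_KI (k i j : Fin n) (h : j ≠ i) (hk : i ≠ k) :
    J k (KI i j h) i = ((mu k (of j)).u : PowerSeries ℤ) • Pi.single i 1 := by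
  have e : ((KI i j h : IA n) : MulAut (FreeGroup (Fin n))) (of i) = of j * of i * (of j)⁻¹ :=
    K_same i j h
  have hu : (mu k (of i)).u = 1 := by rw [mu_of_u, if_neg hk]
  rw [J, e]
  simp only [map_mul, map_inv, Aff.mul_v, Aff.mul_u, Aff.inv_v, hu, mul_one, mu_of_v, smul_neg,
    smul_smul, Units.mul_inv, one_smul]
  abel

theorem J_MI (c i j k : Fin n) (hj : j ≠ i) (hk : k ≠ i) (hc : i ≠ c) :
    J c (MI i j k hj hk) i = Pi.single i 1 +
      ((1 - ((mu c (of k)).u : PowerSeries ℤ)) • Pi.single j 1 +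
        (((mu c (of j)).u : PowerSeries ℤ) - 1) • Pi.single k 1) := by
  have e : ((MI i j k hj hk : IA n) : MulAut (FreeGroup (Fin n))) (of i) =
      of i * (of j * of k * (of j)⁻¹ * (of k)⁻¹) := M_same i j k hj hk
  have hu : (mu c (of i)).u = 1 := by rw [mu_of_u, if_neg hc]
  rw [J, e, map_mul, Aff.mul_v, hu, mu_of_v]
  have e2 : mu c (of j * of k * (of j)⁻¹ * (of k)⁻¹) =
      mu c (of j) * mu c (of k) * (mu c (of j))⁻¹ * (mu c (of k))⁻¹ := by simp
  rw [e2, Aff.cm_v, mu_of_v, mu_of_v, Units.val_one, one_smul]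

theorem coeff_u (k j : Fin n) : PowerSeries.coeff 1 ((mu k (of j)).u : PowerSeries ℤ) =
    if j = k then 1 else 0 := by
  rw [mu_of_u]
  split_ifs
  · simp [tt_val, PowerSeries.coeff_one, PowerSeries.coeff_one_X]
  · simp [PowerSeries.coeff_one]

theorem coeff_u2 (k j : Fin n) : PowerSeries.coeff 2 ((mu k (of j)).u : PowerSeries ℤ) = 0 := by
  rw [mu_of_u]
  split_ifs
  · simp [tt_val, PowerSeries.coeff_one, PowerSeries.coeff_X]
  · simp [PowerSeries.coeff_one]

theorem c1_fix (k : Fin n) (φ : IA n) (l m : Fin n)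
    (h : (φ : MulAut (FreeGroup (Fin n))) (of l) = of l) : c1 k φ l m = 0 := by
  rw [c1, J_fix k φ l h]
  by_cases hm : m = l
  · subst hm; simp [PowerSeries.coeff_one]
  · simp [Pi.single_apply, hm]

theorem c2_fix (k : Fin n) (φ : IA n) (l : Fin n)
    (h : (φ : MulAut (FreeGroup (Fin n))) (of l) = of l) : c2 k φ l = 0 := by
  rw [c2, J_fix k φ l h]
  simp [PowerSeries.coeff_one]

theorem rho_KI (i j : Fin n) (h : j ≠ i) : rho n (KI i j h) = 1 := by
  apply H.ext
  · funext k l m
    show (if Tr k l m then c1 k (KI i j h) l m else 0) = 0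
    split_ifs with ht
    swap
    · rfl
    by_cases hl : l = i
    · subst hl
      rw [c1, J_KI k l j h ht.1]
      simp [Pi.single_apply, ht.2.2.symm]
    · exact c1_fix k _ l m (K_ne i j h hl)
  · funext k l
    show (if l ≠ k then c2 k (KI i j h) l - tri (c1 k (KI i j h) l l) else 0) = 0
    split_ifs with ht
    swap
    · rfl
    by_cases hl : l = i
    · subst hl
      rw [c1, c2, J_KI k l j h ht]
      simp only [Pi.smul_apply, Pi.single_eq_same, smul_eq_mul, mul_one, coeff_u, coeff_u2]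
      split_ifs
      · rw [tri_one]; rfl
      · rw [tri_zero]; rfl
    · rw [c1_fix k _ l l (K_ne i j h hl), c2_fix k _ l (K_ne i j h hl), tri_zero]; rfl

theorem rho_MI_x (i j k : Fin n) (h : Tr i j k) :
    (rho n (MI i j k h.1 h.2.1)).x = X0 i j k := by
  funext c l m
  show (if Tr c l m then c1 c (MI i j k h.1 h.2.1) l m else 0) = X0 i j k c l m
  by_cases ht : Tr c l m
  swap
  · rw [if_neg ht, X0, if_neg, if_neg, sub_zero]
    · rintro ⟨e1, e2, e3⟩
      apply ht
      rw [e1, e2, e3]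
      exact ⟨h.2.1.symm, h.2.2, h.1.symm⟩
    · rintro ⟨e1, e2, e3⟩
      apply ht
      rw [e1, e2, e3]
      exact ⟨h.1.symm, h.2.2.symm, h.2.1.symm⟩
  rw [if_pos ht]
  by_cases hl : l = i
  · subst hl
    rw [c1, J_MI c l j k h.1 h.2.1 ht.1]
    simp only [Pi.add_apply, Pi.smul_apply, smul_eq_mul, map_add, coeff1_mul, map_sub, coeff_u,
      Pi.single_apply, if_neg ht.2.2.symm, X0, mu_cc]
    by_cases h1 : m = j
    · subst h1
      simp [h.2.2, h.2.2.symm, PowerSeries.coeff_one, eq_comm]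
    · by_cases h2 : m = k
      · subst h2
        simp [h1, PowerSeries.coeff_one, eq_comm]
      · simp [h1, h2]
  · rw [c1_fix c _ l m (M_ne i j k h.1 h.2.1 hl)]
    simp [X0, hl]

theorem c1_MI (c i j k l : Fin n) (h : Tr i j k) (hc : l ≠ c) :
    c1 c (MI i j k h.1 h.2.1) l l = 0 := by
  by_cases hl : l = i
  · subst hl
    rw [c1, J_MI c l j k h.1 h.2.1 hc]
    simp [Pi.single_apply, h.1.symm, h.2.1.symm, PowerSeries.coeff_one]
  · exact c1_fix c _ l l (M_ne i j k h.1 h.2.1 hl)

theorem rho_MI_w (i j k : Fin n) (h : Tr i j k) :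
    (rho n (MI i j k h.1 h.2.1)).w = 0 := by
  funext c l
  show (if l ≠ c then c2 c (MI i j k h.1 h.2.1) l - tri (c1 c (MI i j k h.1 h.2.1) l l) else 0) = 0
  split_ifs with ht
  swap
  · rfl
  rw [c1_MI c i j k l h ht, tri_zero]
  by_cases hl : l = i
  · subst hl
    rw [c2, J_MI c l j k h.1 h.2.1 ht]
    simp [Pi.single_apply, h.1.symm, h.2.1.symm, PowerSeries.coeff_one]
  · rw [c2_fix c _ l (M_ne i j k h.1 h.2.1 hl)]; rfl

theorem Cbar_le : Cbar n ≤ (rho n).ker := by
  apply Subgroup.normalClosure_le_normal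
  have : C n ≤ (rho n).ker := by
    rw [C, Subgroup.closure_le]
    rintro f ⟨i, j, hij, h1, h2⟩
    have e : f = KI i j hij.symm := by
      apply Subtype.ext
      apply ext_of
      intro m
      by_cases hm : m = i
      · subst hm
        rw [h1]; exact (K_same m j hij.symm).symm
      · rw [h2 m hm]; exact (K_ne i j hij.symm hm).symm
    rw [e]
    exact rho_KI i j hij.symm
  exact this

end Pool.Agent.Y511.CB
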