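import Pool.Agent.Y511.CB.Cls
import Pool.Agent.Y511.CB.Val

/-!
All relations of the quotient, and the subgroup `C̄(n) ∩ T(n)` for `n ≥ 4`.
-/

set_option autoImplicit false
set_option linter.unusedSimpArgs false

namespace Pool.Agent.Y511.CB

open FreeGroup (of)
open Pool.Agent.Results.MP_0edd48_al.NontrivialIntersection

variable {n : ℕ}

theorem comm_aux (i l k m p : Fin n) (h1 : Tr i l k) (h2 : Tr l m p) (h3 : ¬ Rev i l k l m p) :
    Commute (a i l k) (a l m p) := by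
  obtain ⟨hli, hki, hlk⟩ := h1
  obtain ⟨hml, hpl, hmp⟩ := h2
  by_cases hm : m = i
  · subst hm
    have hkp : p ≠ k := fun e => h3 (Or.inl ⟨rfl, rfl, e.symm⟩)
    exact r4 m l k p hli hki hlk.symm hmp.symm hpl hkp
  by_cases hp : p = i
  · subst hp
    have hkm : m ≠ k := fun e => h3 (Or.inr (Or.inl ⟨rfl, rfl, e.symm⟩))
    rw [a_symm l p m hpl hml]
    exact (r4 p l k m hli hki hlk.symm hm hml hkm).inv_right
  exact r3 i l k m p hli hki hlk.symm hml hpl hm hp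

theorem comm_gen (i j k l m p : Fin n) (h1 : Tr i j k) (h2 : Tr l m p)
    (h3 : ¬ Rev i j k l m p) : Commute (a i j k) (a l m p) := by
  by_cases hil : i = l
  · subst hil
    exact r1 i j k m p h1.1 h1.2.1 h2.1 h2.2.1
  by_cases hj : j = l
  · subst hj
    exact comm_aux i j k m p h1 h2 h3
  by_cases hk : k = l
  · subst hk
    rw [a_symm i k j h1.2.1 h1.1]
    refine (comm_aux i k j m p ⟨h1.2.1, h1.1, h1.2.2.symm⟩ h2 ?_).inv_left
    rintro (⟨_, e2, e3⟩ | ⟨_, e2, e3⟩ | ⟨e1, _, _⟩ | ⟨e1, _, _⟩)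
    · exact h3 (Or.inr (Or.inr (Or.inl ⟨rfl, e2, e3⟩)))
    · exact h3 (Or.inr (Or.inr (Or.inr ⟨rfl, e2, e3⟩)))
    · exact hj e1
    · exact hj e1
  by_cases hm : m = i
  · subst hm
    refine (comm_aux l m p j k h2 h1 ?_).symm
    rintro (⟨_, e2, _⟩ | ⟨_, e2, _⟩ | ⟨e1, _, _⟩ | ⟨e1, _, _⟩)
    · exact hj e2
    · exact hk e2
    · exact h2.2.2 e1.symm
    · exact h2.2.2 e1.symm
  by_cases hp : p = i
  · subst hp
    rw [a_symm l p m h2.2.1 h2.1]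
    refine ((comm_aux l p m j k ⟨h2.2.1, h2.1, h2.2.2.symm⟩ h1 ?_).symm).inv_right
    rintro (⟨_, e2, _⟩ | ⟨_, e2, _⟩ | ⟨e1, _, _⟩ | ⟨e1, _, _⟩)
    · exact hj e2
    · exact hk e2
    · exact hm e1
    · exact hm e1
  exact r2 i j k l m p h1.1 h1.2.1 h2.1 h2.2.1 hil hj hk hm hp

theorem cen_special (p q r s : Fin n) (h : Tr p q r) (hps : s ≠ p) (hqs : s ≠ q) (hrs : s ≠ r) :
    Commute (a r p q) (cm (a p q r) (a q p r)) := by
  obtain ⟨hqp, hrp, hqr⟩ := h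
  have e := coc p s r q hps hrp hrs.symm hqp hqs.symm hqr
  rw [e]
  have t0 : Tr r p q := ⟨hrp.symm, hqr, hqp.symm⟩
  refine (cm_comm ?_ ?_).mul_right (cm_comm ?_ ?_)
  · apply comm_gen _ _ _ _ _ _ t0 ⟨hps, hrp, hrs⟩
    simp [Rev, hps, hqs, hrs, hqp, hrp, hqr, hqp.symm, hrp.symm, hqr.symm, hqs.symm, hps.symm,
      hrs.symm]
  · apply comm_gen _ _ _ _ _ _ t0 ⟨hps.symm, hrs.symm, hrp.symm⟩
    simp [Rev, hps, hqs, hrs, hqp, hrp, hqr, hqp.symm, hrp.symm, hqr.symm, hqs.symm, hps.symm,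
      hrs.symm]
  · apply comm_gen _ _ _ _ _ _ t0 ⟨hqs.symm, hrs.symm, hqr⟩
    simp [Rev, hps, hqs, hrs, hqp, hrp, hqr, hqp.symm, hrp.symm, hqr.symm, hqs.symm, hps.symm,
      hrs.symm]
  · apply comm_gen _ _ _ _ _ _ t0 ⟨hqs, hqr.symm, hrs⟩
    simp [Rev, hps, hqs, hrs, hqp, hrp, hqr, hqp.symm, hrp.symm, hqr.symm, hqs.symm, hps.symm,
      hrs.symm]

theorem cen_gen (i j k p q r s : Fin n) (h1 : Tr i j k) (h : Tr p q r) (hps : s ≠ p) (hqs : s ≠ q)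
    (hrs : s ≠ r) : Commute (a i j k) (cm (a p q r) (a q p r)) := by
  have hsp := cen_special p q r s h hps hqs hrs
  obtain ⟨hqp, hrp, hqr⟩ := h
  have hc := cls' p q r s hqp hrp hqr.symm hps hqs hrs
  by_cases h2 : Rev i j k p q r
  · rcases h2 with ⟨e1, e2, e3⟩ | ⟨e1, e2, e3⟩ | ⟨e1, e2, e3⟩ | ⟨e1, e2, e3⟩
    · rw [← e2, e1, e3] at *
      exact hc.2
    · rw [← e2, e1, e3] at *
      exact hsp
    · rw [e1, ← e2, e3] at *
      rw [a_symm q p r hqp.symm hqr.symm]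
      exact hc.2.inv_left
    · rw [e1, ← e2, e3] at *
      rw [a_symm r p q hrp.symm hqr]
      exact hsp.inv_left
  by_cases h3 : Rev i j k q p r
  · rcases h3 with ⟨e1, e2, e3⟩ | ⟨e1, e2, e3⟩ | ⟨e1, e2, e3⟩ | ⟨e1, e2, e3⟩
    · rw [← e2, e1, e3] at *
      exact hc.1
    · rw [← e2, e1, e3] at *
      rw [a_symm r p q hrp.symm hqr]
      exact hsp.inv_left
    · rw [e1, ← e2, e3] at *
      rw [a_symm p q r hqp hrp]
      exact hc.1.inv_left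
    · rw [e1, ← e2, e3] at *
      exact hsp
  exact cm_comm (comm_gen _ _ _ _ _ _ h1 ⟨hqp, hrp, hqr⟩ h2)
    (comm_gen _ _ _ _ _ _ h1 ⟨hqp.symm, hqr.symm, hrp.symm⟩ h3)

end Pool.Agent.Y511.CB
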