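import Pool.Agent.Results.MP_0edd48_al.NontrivialIntersection

/-!
Exact identities between basis-conjugating automorphisms, commutator transvections and
transvections of a free group.
-/

set_option autoImplicit false
set_option linter.unusedSimpArgs false

namespace Pool.Agent.Y511.CB

open FreeGroup (of)
open Pool.Agent.Results.MP_0edd48_al.NontrivialIntersection

variable {n : ℕ}

/-- Left and right multiplications of `x_i` commute. -/
theorem E1 (i j k j' k' : Fin n) (hj : j ≠ i) (hk : k ≠ i) (hj' : j' ≠ i) (hk' : k' ≠ i) :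
    ((K i k hk)⁻¹ * (K i j hj)⁻¹ * K i k hk * K i j hj * M i j k hj hk) * M i j' k' hj' hk' =
      M i j' k' hj' hk' *
        ((K i k hk)⁻¹ * (K i j hj)⁻¹ * K i k hk * K i j hj * M i j k hj hk) := by
  apply ext_of
  intro m
  simp only [MulAut.mul_apply]
  by_cases h1 : m = i
  · subst h1
    simp only [K_same, K_ne, Ki_same, Ki_ne, M_same, M_ne, Mi_same, Mi_ne, map_mul,
      map_inv, hj, hk, hj', hk', ne_eq, not_false_eq_true]
    group
  simp only [K_ne _ _ _ h1, Ki_ne _ _ _ h1, M_ne _ _ _ _ _ h1]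

/-- Disjoint commutator transvections commute. -/
theorem E2 (i j k l m p : Fin n) (hj : j ≠ i) (hk : k ≠ i) (hm : m ≠ l) (hp : p ≠ l)
    (hil : i ≠ l) (hlj : j ≠ l) (hlk : k ≠ l) (him : m ≠ i) (hip : p ≠ i) :
    M i j k hj hk * M l m p hm hp = M l m p hm hp * M i j k hj hk := by
  apply ext_of
  intro x
  simp only [MulAut.mul_apply]
  by_cases h1 : x = i
  · subst h1
    simp only [M_same, M_ne, map_mul, map_inv, hj, hk, hm, hp, hil, hil.symm, hlj, hlk, him, hip,
      ne_eq, not_false_eq_true]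
  by_cases h2 : x = l
  · subst h2
    simp only [M_same, M_ne, map_mul, map_inv, hj, hk, hm, hp, hil, hil.symm, hlj, hlk, him, hip,
      ne_eq, not_false_eq_true]
  simp only [M_ne _ _ _ _ _ h1, M_ne _ _ _ _ _ h2]

theorem E3 (i l k m p : Fin n) (hl : l ≠ i) (hk : k ≠ i) (hkl : k ≠ l) (hm : m ≠ l) (hp : p ≠ l)
    (him : m ≠ i) (hip : p ≠ i) :
    M l m p hm hp * M i l k hl hk =
      (K i l hl)⁻¹ * (M i m p him hip * (K i k hk)⁻¹ * (M i m p him hip)⁻¹ * K i k hk) *
        K i l hl * M i l k hl hk * M l m p hm hp := by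
  apply ext_of
  intro x
  simp only [MulAut.mul_apply]
  by_cases h1 : x = i
  · subst h1
    simp only [K_same, K_ne, Ki_same, Ki_ne, M_same, M_ne, Mi_same, Mi_ne, map_mul,
      map_inv, hl, hk, hkl, hm, hp, him, hip, hl.symm, hkl.symm, ne_eq, not_false_eq_true,
      mul_inv_rev, inv_inv]
    group
  by_cases h2 : x = l
  · subst h2
    simp only [K_same, K_ne, Ki_same, Ki_ne, M_same, M_ne, Mi_same, Mi_ne, map_mul,
      map_inv, hl, hk, hkl, hm, hp, him, hip, hl.symm, hkl.symm, ne_eq, not_false_eq_true]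
  simp only [K_ne _ _ _ h1, Ki_ne _ _ _ h1, M_ne _ _ _ _ _ h1, Mi_ne _ _ _ _ _ h1,
    M_ne _ _ _ _ _ h2]

/-- The relation from which the commutation of `a_{i;lm}` and `a_{l;ik}` is deduced. -/
theorem E4 (i l m k : Fin n) (hl : l ≠ i) (hk : k ≠ i) (hm : m ≠ i) (hml : m ≠ l) (hkl : k ≠ l)
    (hkm : k ≠ m) :
    K m l hml.symm * M i m k hm hk =
      M i l m hl hm * M i m k hm hk * (K i k hk)⁻¹ * (M i l m hl hm)⁻¹ * K i k hk *
        K m l hml.symm := by
  apply ext_of
  intro x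
  simp only [MulAut.mul_apply]
  by_cases h1 : x = i
  · subst h1
    simp only [K_same, K_ne, Ki_same, Ki_ne, M_same, M_ne, Mi_same, Mi_ne, map_mul,
      map_inv, hl, hk, hkl, hm, hml, hkm, hl.symm, hkl.symm, hk.symm, hm.symm, hml.symm, hkm.symm,
      ne_eq, not_false_eq_true, mul_inv_rev, inv_inv]
    group
  by_cases h2 : x = m
  · subst h2
    simp only [K_same, K_ne, Ki_same, Ki_ne, M_same, M_ne, Mi_same, Mi_ne, map_mul,
      map_inv, hl, hk, hkl, hm, hml, hkm, hl.symm, hkl.symm, hk.symm, hm.symm, hml.symm, hkm.symm,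
      ne_eq, not_false_eq_true, mul_inv_rev, inv_inv]
  simp only [K_ne _ _ _ h1, Ki_ne _ _ _ h1, M_ne _ _ _ _ _ h1, Mi_ne _ _ _ _ _ h1,
    K_ne _ _ _ h2]

section trans

variable (p q r s : Fin n) (hpq : q ≠ p) (hpr : r ≠ p) (hqr : r ≠ q)
  (hps : s ≠ p) (hqs : s ≠ q) (hrs : s ≠ r)

theorem F1 : Φ q p hpq.symm * K r q hqr.symm =
    K r p hpr.symm * K r q hqr.symm * Φ q p hpq.symm := by
  apply ext_of
  intro x
  simp only [MulAut.mul_apply]
  by_cases h1 : x = q
  · subst h1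
    simp only [K_same, K_ne, Φ_same, Φ_ne, map_mul,
      map_inv, hpq, hpr, hqr, hpq.symm, hpr.symm, hqr.symm, ne_eq, not_false_eq_true]
  by_cases h2 : x = r
  · subst h2
    simp only [K_same, K_ne, Φ_same, Φ_ne, map_mul,
      map_inv, hpq, hpr, hqr, hpq.symm, hpr.symm, hqr.symm, ne_eq, not_false_eq_true]
    group
  simp only [K_ne _ _ _ h2, Φ_ne _ _ _ h1]

theorem F2 : Φ q p hpq.symm * M p r s hpr hps =
    (K q p hpq.symm)⁻¹ * (M q r s hqr hqs)⁻¹ * K q p hpq.symm * M p r s hpr hps *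
      Φ q p hpq.symm := by
  apply ext_of
  intro x
  simp only [MulAut.mul_apply]
  by_cases h1 : x = q
  · subst h1
    simp only [K_same, K_ne, Ki_same, Ki_ne, M_same, M_ne, Mi_same, Mi_ne, Φ_same, Φ_ne, map_mul,
      map_inv, hpq, hpr, hqr, hps, hqs, hpq.symm, hpr.symm, hqr.symm, hps.symm, hqs.symm, ne_eq,
      not_false_eq_true, mul_inv_rev, inv_inv]
    group
  by_cases h2 : x = p
  · subst h2
    simp only [K_same, K_ne, Ki_same, Ki_ne, M_same, M_ne, Mi_same, Mi_ne, Φ_same, Φ_ne, map_mul,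
      map_inv, hpq, hpr, hqr, hps, hqs, hpq.symm, hpr.symm, hqr.symm, hps.symm, hqs.symm, ne_eq,
      not_false_eq_true, mul_inv_rev, inv_inv]
  simp only [K_ne _ _ _ h1, Ki_ne _ _ _ h1, M_ne _ _ _ _ _ h2, Mi_ne _ _ _ _ _ h1,
    Φ_ne _ _ _ h1]

include hpr hqr in
/-- Here `s` is the index that is transvected. -/
theorem F3 : Φ q p hpq.symm * M s q r hqs.symm hrs.symm =
    ((K s q hqs.symm)⁻¹ * M s p r hps.symm hrs.symm * K s q hqs.symm) *
      M s q r hqs.symm hrs.symm * Φ q p hpq.symm := by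
  apply ext_of
  intro x
  simp only [MulAut.mul_apply]
  by_cases h1 : x = q
  · subst h1
    simp only [K_same, K_ne, Ki_same, Ki_ne, M_same, M_ne, Mi_same, Mi_ne, Φ_same, Φ_ne, map_mul,
      map_inv, hpq, hpr, hqr, hps, hqs, hrs, hpq.symm, hpr.symm, hqr.symm, hps.symm, hqs.symm,
      hrs.symm, ne_eq, not_false_eq_true, mul_inv_rev, inv_inv]
  by_cases h2 : x = s
  · subst h2
    simp only [K_same, K_ne, Ki_same, Ki_ne, M_same, M_ne, Mi_same, Mi_ne, Φ_same, Φ_ne, map_mul,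
      map_inv, hpq, hpr, hqr, hps, hqs, hrs, hpq.symm, hpr.symm, hqr.symm, hps.symm, hqs.symm,
      hrs.symm, ne_eq, not_false_eq_true, mul_inv_rev, inv_inv]
    group
  simp only [K_ne _ _ _ h2, Ki_ne _ _ _ h2, M_ne _ _ _ _ _ h2, Φ_ne _ _ _ h1]

end trans

end Pool.Agent.Y511.CB
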