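import Pool.Agent.Y511.CB.Id

/-!
Relations in the quotient of `IA(F(n))` by the normal closure of `C(n)`.
-/

set_option autoImplicit false

namespace Pool.Agent.Y511.CB

open FreeGroup (of)
open Pool.Agent.Results.MP_0edd48_al.NontrivialIntersection

variable {n : ℕ}

instance instNormalIA : (IA n).Normal := MonoidHom.normal_ker _

instance instNormalCbar : (Cbar n).Normal := Subgroup.normalClosure_normal

/-- The quotient map from `IA(F(n))`. -/
def pr (n : ℕ) : IA n →* IA n ⧸ Cbar n := QuotientGroup.mk' (Cbar n)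

/-- The image of `K_{ijk}` in the quotient. -/
noncomputable def a (i j k : Fin n) : IA n ⧸ Cbar n :=
  open Classical in if h : j ≠ i ∧ k ≠ i then pr n (MI i j k h.1 h.2) else 1

theorem pM (i j k : Fin n) (hj : j ≠ i) (hk : k ≠ i) : pr n (MI i j k hj hk) = a i j k := by
  rw [a, dif_pos ⟨hj, hk⟩]

theorem pK (i j : Fin n) (h : j ≠ i) : pr n (KI i j h) = 1 := by
  rw [← MonoidHom.mem_ker, pr, QuotientGroup.ker_mk']
  exact KI_mem i j h

theorem a_symm (i j k : Fin n) (hj : j ≠ i) (hk : k ≠ i) : a i k j = (a i j k)⁻¹ := by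
  have e : MI i k j hk hj = (MI i j k hj hk)⁻¹ := by
    apply Subtype.ext
    apply ext_of
    intro m
    show M i k j hk hj (of m) = (M i j k hj hk)⁻¹ (of m)
    by_cases h1 : m = i
    · subst h1
      rw [M_same, Mi_same]
    · rw [M_ne _ _ _ _ _ h1, Mi_ne _ _ _ _ _ h1]
  rw [← pM i j k hj hk, ← pM i k j hk hj, ← map_inv, e]

theorem r1 (i j k j' k' : Fin n) (hj : j ≠ i) (hk : k ≠ i) (hj' : j' ≠ i) (hk' : k' ≠ i) :
    Commute (a i j k) (a i j' k') := by
  have e : ((KI i k hk)⁻¹ * (KI i j hj)⁻¹ * KI i k hk * KI i j hj * MI i j k hj hk) *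
      MI i j' k' hj' hk' = MI i j' k' hj' hk' *
        ((KI i k hk)⁻¹ * (KI i j hj)⁻¹ * KI i k hk * KI i j hj * MI i j k hj hk) :=
    Subtype.ext (E1 i j k j' k' hj hk hj' hk')
  have e2 := congrArg (pr n) e
  simp only [map_mul, map_inv, pK, pM, inv_one, one_mul, mul_one] at e2
  exact e2

theorem r2 (i j k l m p : Fin n) (hj : j ≠ i) (hk : k ≠ i) (hm : m ≠ l) (hp : p ≠ l)
    (hil : i ≠ l) (hlj : j ≠ l) (hlk : k ≠ l) (him : m ≠ i) (hip : p ≠ i) :
    Commute (a i j k) (a l m p) := by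
  have e : MI i j k hj hk * MI l m p hm hp = MI l m p hm hp * MI i j k hj hk :=
    Subtype.ext (E2 i j k l m p hj hk hm hp hil hlj hlk him hip)
  have e2 := congrArg (pr n) e
  simp only [map_mul, pM] at e2
  exact e2

theorem r3 (i l k m p : Fin n) (hl : l ≠ i) (hk : k ≠ i) (hkl : k ≠ l) (hm : m ≠ l) (hp : p ≠ l)
    (him : m ≠ i) (hip : p ≠ i) : Commute (a i l k) (a l m p) := by
  have e : MI l m p hm hp * MI i l k hl hk =
      (KI i l hl)⁻¹ * (MI i m p him hip * (KI i k hk)⁻¹ * (MI i m p him hip)⁻¹ * KI i k hk) *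
        KI i l hl * MI i l k hl hk * MI l m p hm hp :=
    Subtype.ext (E3 i l k m p hl hk hkl hm hp him hip)
  have e2 := congrArg (pr n) e
  simp only [map_mul, map_inv, pK, pM, inv_one, one_mul, mul_one, mul_inv_cancel] at e2
  exact e2.symm

/-- Conjugation by an automorphism of the free group, as an endomorphism of `IA(F(n))`. -/
def cN (φ : MulAut (FreeGroup (Fin n))) : IA n →* IA n := (MulAut.conjNormal φ).toMonoidHom

theorem cN_of {φ : MulAut (FreeGroup (Fin n))} {g g' : IA n}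
    (h : φ * (g : MulAut (FreeGroup (Fin n))) = (g' : MulAut (FreeGroup (Fin n))) * φ) :
    cN φ g = g' := by
  apply Subtype.ext
  show ((MulAut.conjNormal φ g : IA n) : MulAut (FreeGroup (Fin n))) = _
  rw [MulAut.conjNormal_apply, h, mul_inv_cancel_right]

/-- Conjugation by the transvection `x_q ↦ x_q x_p`, followed by the quotient map. -/
def ps (q p : Fin n) (h : p ≠ q) : IA n →* IA n ⧸ Cbar n := (pr n).comp (cN (Φ q p h))

section trans

variable (p q r s : Fin n) (hpq : q ≠ p) (hpr : r ≠ p) (hqr : r ≠ q)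
  (hps : s ≠ p) (hqs : s ≠ q) (hrs : s ≠ r)

include hqr in
theorem g1 : ps q p hpq.symm (KI p r hpr) = a q p r := by
  have : cN (Φ q p hpq.symm) (KI p r hpr) = MI q p r hpq.symm hqr * KI p r hpr :=
    cN_of (R2 p q r hpq hpr hqr)
  rw [ps, MonoidHom.comp_apply, this, map_mul, pK, pM, mul_one]

include hpr in
theorem g2 : ps q p hpq.symm (KI r q hqr.symm) = 1 := by
  have : cN (Φ q p hpq.symm) (KI r q hqr.symm) = KI r p hpr.symm * KI r q hqr.symm :=
    cN_of (F1 p q r hpq hpr hqr)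
  rw [ps, MonoidHom.comp_apply, this, map_mul, pK, pK, mul_one]

include hqr in
theorem g3 : ps q p hpq.symm (MI p q r hpq hpr) = (a q p r)⁻¹ * a p q r := by
  have : cN (Φ q p hpq.symm) (MI p q r hpq hpr) =
      (KI q p hpq.symm)⁻¹ * (KI p q hpq)⁻¹ * (KI p r hpr)⁻¹ * (MI q p r hpq.symm hqr)⁻¹ *
        KI p q hpq * MI p q r hpq hpr * KI q r hqr * KI q p hpq.symm :=
    cN_of (R1 p q r hpq hpr hqr)
  rw [ps, MonoidHom.comp_apply, this]
  simp only [map_mul, map_inv, pK, pM, inv_one, one_mul, mul_one]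

include hqr hqs in
theorem g4 : ps q p hpq.symm (MI p r s hpr hps) = (a q r s)⁻¹ * a p r s := by
  have : cN (Φ q p hpq.symm) (MI p r s hpr hps) =
      (KI q p hpq.symm)⁻¹ * (MI q r s hqr hqs)⁻¹ * KI q p hpq.symm * MI p r s hpr hps :=
    cN_of (F2 p q r s hpq hpr hqr hps hqs)
  rw [ps, MonoidHom.comp_apply, this]
  simp only [map_mul, map_inv, pK, pM, inv_one, one_mul, mul_one]

include hpr hqr hps in
theorem g5 : ps q p hpq.symm (MI s q r hqs.symm hrs.symm) = a s p r * a s q r := by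
  have : cN (Φ q p hpq.symm) (MI s q r hqs.symm hrs.symm) =
      ((KI s q hqs.symm)⁻¹ * MI s p r hps.symm hrs.symm * KI s q hqs.symm) *
      MI s q r hqs.symm hrs.symm :=
    cN_of (F3 p q r s hpq hpr hqr hps hqs hrs)
  rw [ps, MonoidHom.comp_apply, this]
  simp only [map_mul, map_inv, pK, pM, inv_one, one_mul, mul_one]

include hpq hpr hqr hps hqs hrs in
theorem r4 : Commute (a p q r) (a q p s) := by
  have e : KI r q hqr.symm * MI p r s hpr hps =
      MI p q r hpq hpr * MI p r s hpr hps * (KI p s hps)⁻¹ * (MI p q r hpq hpr)⁻¹ *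
        KI p s hps * KI r q hqr.symm :=
    Subtype.ext (E4 p q r s hpq hps hpr hqr hqs hrs)
  have e2 := congrArg (ps q p hpq.symm) e
  simp only [map_mul, map_inv, g1 p q s hpq hps hqs, g2 p q r hpq hpr hqr,
    g3 p q r hpq hpr hqr, g4 p q r s hpq hpr hqr hps hqs, one_mul, mul_one] at e2
  -- the element `c` commutes with `x`
  set A := a p q r with hA
  set B := a q p r with hB
  set B' := a q p s with hB'
  set C := a q r s
  set D := a p r s
  have c1 : Commute A D := r1 p q r r s hpq hpr hpr hps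
  have c2 : Commute B C := r1 q p r r s hpq.symm hqr hqr hqs
  have c3 : Commute A C := r3 p q r r s hpq hpr hqr hqr hqs hpr hps
  have c4 : Commute B D := r3 q p r r s hpq.symm hqr hpr hpr hps hqr hqs
  have c5 : Commute B B' := r1 q p r p s hpq.symm hqr hpq.symm hqs
  have c6 : Commute (B⁻¹ * A) (C⁻¹ * D) :=
    ((c2.inv_left.mul_left c3).inv_right).mul_right (c4.inv_left.mul_left c1)
  have c7 : Commute (B⁻¹ * A) B' := by
    have e3 : C⁻¹ * D = (C⁻¹ * D) * ((B⁻¹ * A) * B'⁻¹ * (B⁻¹ * A)⁻¹ * B') := by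
      calc C⁻¹ * D = B⁻¹ * A * (C⁻¹ * D) * B'⁻¹ * (B⁻¹ * A)⁻¹ * B' := e2
        _ = _ := by rw [c6.eq]; simp only [mul_assoc]
    have e4 : (B⁻¹ * A) * B'⁻¹ * (B⁻¹ * A)⁻¹ * B' = 1 := by
      exact (mul_eq_left.mp e3.symm)
    have e5 : (B⁻¹ * A) * B'⁻¹ = B'⁻¹ * (B⁻¹ * A) := by
      have h := e4
      rw [mul_assoc, mul_eq_one_iff_eq_inv] at h
      rw [h]
      group
    have e6 : Commute (B⁻¹ * A) B'⁻¹ := e5
    exact Commute.inv_right_iff.mp e6
  have c8 : A = B * (B⁻¹ * A) := by group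
  rw [c8]
  exact c5.mul_left c7

end trans

end Pool.Agent.Y511.CB
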