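import Pool.Agent.Y511.CB.Fox
import Pool.Agent.Y511.CB.Rec
import Pool.Agent.Results.MP_0edd48_al.NontrivialIntersection

/-!
The homomorphism from `IA(F(n))` to the explicit group of class two.
-/

set_option autoImplicit false

namespace Pool.Agent.Y511.CB

open FreeGroup (of)
open Pool.Agent.Results.MP_0edd48_al.NontrivialIntersection

variable {n : ℕ}

/-- A homomorphism to a commutative group does not see automorphisms in `IA(F(n))`. -/
theorem ia_inv {A : Type*} [CommGroup A] (f : FreeGroup (Fin n) →* A) (φ : IA n) (m : Fin n) :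
    f ((φ : MulAut (FreeGroup (Fin n))) (of m)) = f (of m) := by
  have h := (mem_IA_iff (φ : MulAut (FreeGroup (Fin n)))).mp φ.2 m
  have h2 : f = (Abelianization.lift f).comp Abelianization.of := by
    ext; simp
  rw [h2, MonoidHom.comp_apply, MonoidHom.comp_apply, h]

/-- The Jacobian matrix: row `j` consists of the Fox derivatives of `φ(x_j)`. -/
noncomputable def J (k : Fin n) (φ : IA n) (j : Fin n) : Fin n → PowerSeries ℤ :=
  (mu k ((φ : MulAut (FreeGroup (Fin n))) (of j))).v

theorem u_inv (k : Fin n) (φ : IA n) (m : Fin n) :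
    (mu k ((φ : MulAut (FreeGroup (Fin n))) (of m))).u = if m = k then tt else 1 := by
  have h := ia_inv ((Aff.uHom).comp (mu k)) φ m
  rw [MonoidHom.comp_apply, MonoidHom.comp_apply] at h
  rw [← mu_of_u]
  exact h

theorem J_cc (k : Fin n) (φ : IA n) (j m : Fin n) :
    PowerSeries.constantCoeff (J k φ j m) = if j = m then 1 else 0 := by
  have h := ia_inv (ee k m) φ j
  have h2 : PowerSeries.constantCoeff (J k φ j m) =
      PowerSeries.constantCoeff ((mu k (of j)).v m) := Multiplicative.ofAdd.injective h
  rw [h2, mu_of_v]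
  by_cases h3 : j = m
  · subst h3; simp
  · simp [h3, Ne.symm h3]

theorem J_k (k : Fin n) (φ : IA n) (j : Fin n) (hj : j ≠ k) : J k φ j k = 0 := by
  have h := mu_k k ((φ : MulAut (FreeGroup (Fin n))) (of j))
  rw [u_inv, if_neg hj, Units.val_one] at h
  have h2 : PowerSeries.X * (mu k ((φ : MulAut (FreeGroup (Fin n))) (of j))).v k = 0 := by
    linear_combination -h
  rcases mul_eq_zero.mp h2 with h3 | h3
  · exact absurd h3 PowerSeries.X_ne_zero
  · exact h3

theorem mu_comp (k : Fin n) (φ : IA n) (w : FreeGroup (Fin n)) :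
    mu k ((φ : MulAut (FreeGroup (Fin n))) w) = Aff.lin (J k φ) (mu k w) := by
  have h : (mu k).comp (φ : MulAut (FreeGroup (Fin n))).toMonoidHom =
      (Aff.lin (J k φ)).comp (mu k) := by
    apply FreeGroup.ext_hom
    intro j
    apply Aff.ext
    · show (mu k ((φ : MulAut (FreeGroup (Fin n))) (of j))).u = (mu k (of j)).u
      rw [u_inv, mu_of_u]
    · show (mu k ((φ : MulAut (FreeGroup (Fin n))) (of j))).v =
        ∑ m, (mu k (of j)).v m • J k φ m
      rw [mu_of_v, Finset.sum_eq_single j]
      · simp [J]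
      · intro m _ hm
        simp [hm]
      · intro h; exact absurd (Finset.mem_univ j) h
  exact DFunLike.congr_fun h w

theorem J_mul (k : Fin n) (φ ψ : IA n) (j m : Fin n) :
    J k (φ * ψ) j m = ∑ l, J k ψ j l * J k φ l m := by
  have h : J k (φ * ψ) j = (Aff.lin (J k φ) (mu k ((ψ : MulAut (FreeGroup (Fin n))) (of j)))).v :=
    congrArg Aff.v (mu_comp k φ ((ψ : MulAut (FreeGroup (Fin n))) (of j)))
  rw [h]
  show (∑ l, J k ψ j l • J k φ l) m = _
  simp

theorem coeff1_mul (p q : PowerSeries ℤ) : PowerSeries.coeff 1 (p * q) =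
    PowerSeries.coeff 1 p * PowerSeries.constantCoeff q +
      PowerSeries.constantCoeff p * PowerSeries.coeff 1 q := by
  rw [PowerSeries.coeff_mul]
  simp [Finset.Nat.antidiagonal_succ]
  ring

theorem coeff2_mul (p q : PowerSeries ℤ) : PowerSeries.coeff 2 (p * q) =
    PowerSeries.coeff 2 p * PowerSeries.constantCoeff q +
      PowerSeries.coeff 1 p * PowerSeries.coeff 1 q +
      PowerSeries.constantCoeff p * PowerSeries.coeff 2 q := by
  rw [PowerSeries.coeff_mul]
  simp [Finset.Nat.antidiagonal_succ]
  ring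

/-- First order coefficients. -/
noncomputable def c1 (k : Fin n) (φ : IA n) (j m : Fin n) : ℤ := PowerSeries.coeff 1 (J k φ j m)

/-- Second order coefficients. -/
noncomputable def c2 (k : Fin n) (φ : IA n) (j : Fin n) : ℤ := PowerSeries.coeff 2 (J k φ j j)

theorem c1_mul (k : Fin n) (φ ψ : IA n) (j m : Fin n) :
    c1 k (φ * ψ) j m = c1 k φ j m + c1 k ψ j m := by
  unfold c1
  rw [J_mul, map_sum]
  simp only [coeff1_mul, J_cc, mul_ite, mul_one, mul_zero, ite_mul, one_mul, zero_mul,
    Finset.sum_add_distrib, Finset.sum_ite_eq, Finset.sum_ite_eq', Finset.mem_univ, if_true]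
  ring

theorem c2_mul (k : Fin n) (φ ψ : IA n) (j : Fin n) :
    c2 k (φ * ψ) j = c2 k φ j + c2 k ψ j + ∑ l, c1 k ψ j l * c1 k φ l j := by
  unfold c2 c1
  rw [J_mul, map_sum]
  simp only [coeff2_mul, J_cc, mul_ite, mul_one, mul_zero, ite_mul, one_mul, zero_mul,
    Finset.sum_add_distrib, Finset.sum_ite_eq, Finset.sum_ite_eq', Finset.mem_univ, if_true]
  ring

/-- The binomial coefficient `d (d - 1) / 2`. -/
def tri (d : ℤ) : ℤ := d * (d - 1) / 2

theorem two_tri (d : ℤ) : 2 * tri d = d * (d - 1) :=
  Int.mul_ediv_cancel' (even_iff_two_dvd.mp (Int.even_mul_pred_self d))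

theorem tri_add (d e : ℤ) : tri (d + e) = tri d + tri e + d * e := by
  have h1 := two_tri d
  have h2 := two_tri e
  have h3 := two_tri (d + e)
  have : 2 * tri (d + e) = 2 * (tri d + tri e + d * e) := by
    rw [h3, mul_add, mul_add, h1, h2]; ring
  linarith

theorem tri_zero : tri 0 = 0 := by decide
theorem tri_one : tri 1 = 0 := by decide

/-- The homomorphism `ρ` as a function. -/
noncomputable def rf (φ : IA n) : H n where
  x k i m := if Tr k i m then c1 k φ i m else 0
  w k i := if i ≠ k then c2 k φ i - tri (c1 k φ i i) else 0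

theorem c1_k (k : Fin n) (φ : IA n) (i : Fin n) (h : i ≠ k) : c1 k φ i k = 0 := by
  rw [c1, J_k k φ i h, map_zero]

/-- The homomorphism `ρ`. -/
noncomputable def rho (n : ℕ) : IA n →* H n :=
  MonoidHom.mk' rf (by
    intro φ ψ
    apply H.ext
    · funext k i m
      simp only [rf, H.mul_x, Pi.add_apply]
      split_ifs with h
      · exact c1_mul k φ ψ i m
      · simp
    · funext k i
      simp only [rf, H.mul_w, Pi.add_apply, H.b]
      split_ifs with h
      swap
      · have : ∀ m, ¬ Tr k i m := fun m h' => h h'.1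
        simp [this]
      rw [c2_mul, c1_mul, tri_add]
      have e : ∑ l, c1 k ψ i l * c1 k φ l i = c1 k φ i i * c1 k ψ i i +
          ∑ m, (if Tr k i m then c1 k ψ i m else 0) * (if Tr k m i then c1 k φ m i else 0) := by
        have h1 : ∀ l, c1 k ψ i l * c1 k φ l i =
            (if l = i then c1 k φ i i * c1 k ψ i i else 0) +
              (if Tr k i l then c1 k ψ i l else 0) * (if Tr k l i then c1 k φ l i else 0) := by
          intro l
          by_cases hl : l = i
          · subst hl
            have : ¬ Tr k l l := fun h' => h'.2.2 rfl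
            simp [this, mul_comm]
          by_cases hk : l = k
          · subst hk
            have : ¬ Tr l i l := fun h' => h'.2.1 rfl
            simp [this, hl, c1_k _ _ _ h]
          have h2 : Tr k i l := ⟨h, hk, Ne.symm hl⟩
          have h3 : Tr k l i := ⟨hk, h, hl⟩
          simp [h2, h3, hl]
        rw [Finset.sum_congr rfl fun l _ => h1 l, Finset.sum_add_distrib]
        simp
      rw [e]
      ring)

end Pool.Agent.Y511.CB
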